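import Pool.Agent.Helper25.T4.Assemble
import Pool.Agent.Helper36.T4.Size

/-!
# T4', macroscopic pairs: the two-sided half of `macro_block` from the pattern alternative
-/

namespace Pool.Agent.Helper25.T4

open Finset Pool.Agent.Helper27.T4 Pool.Agent.Helper5.ET

/-- a pattern which allows at most `k0` hits -/
def VoidC (s s' n k0 : ℕ) (C C' : Finset (Fin 3)) : Prop :=
  ∀ T ⊆ YY s s' n, (∀ y ∈ T, ∀ z ∈ T, Cpt s s' n C C' y z) → Pat C C' T →
    Set.InjOn hz (T : Set Hit) → T.card ≤ k0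

open Classical in
/-- a pattern for which the expected number of hits is at most `Q` -/
def RareC (s s' n : ℕ) (Q : ℝ) (C C' : Finset (Fin 3)) : Prop :=
  ∀ y ∈ YY s s' n, (((YY s s' n).filter (Cpt s s' n C C' y)).card : ℝ) * Wt s s' C C' ≤ Q

/-- hits with a pattern are compatible -/
theorem cpt_of_hits {s s' n : ℕ} {w : Key → ℕ} (hw : ∀ k, w k < Mk k) {C C' : Finset (Fin 3)}
    {T : Finset Hit} (hhit : ∀ y ∈ T, isHit s s' n w y) (hP : Pat C C' T) :
    ∀ y ∈ T, ∀ z ∈ T, Cpt s s' n C C' y z := by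
  intro y hy z hz
  refine ⟨hP.1 y hy z hz, hP.2.1 y hy z hz, ?_, ?_⟩
  · intro f hf
    have h1 := key_eq (w := w) (s := s) (x := hx1 y) f (hw _)
    have h2 := key_eq (w := w) (s := s) (x := hx1 z) f (hw _)
    rw [code_A (hhit y hy)] at h1
    rw [code_A (hhit z hz)] at h2
    rw [← h1, ← h2, hkey_const hf (hP.1 y hy z hz)]
  · intro f hf
    have h1 := key_eq (w := w) (s := s') (x := hx2 y) f (hw _)
    have h2 := key_eq (w := w) (s := s') (x := hx2 z) f (hw _)
    rw [code_B (hhit y hy)] at h1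
    rw [code_B (hhit z hz)] at h2
    rw [← h1, ← h2, hkey_const hf (hP.2.1 y hy z hz)]

/-- the assembly: for every `n`, every pattern is void or rare -/
theorem macro_ofC {s s' : ℕ} (hs : s ≠ s') (K : Finset Key) (hK : keysOf s ⊆ K)
    (hK' : keysOf s' ⊆ K) (k0 m N : ℕ) (Q NY : ℝ) (hQ : 0 ≤ Q) (hK1 : k0 ≤ m)
    (hN : ∀ n w, N ≤ n → Rp s s' w n = 0) (hNY : ∀ n < N, ((YY s s' n).card : ℝ) ≤ NY)
    (h : ∀ n, ∀ C C' : Finset (Fin 3), VoidC s s' n k0 C C' ∨ RareC s s' n Q C C') :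
    PrLe K (fun w => ∃ n, (((m + 1) ^ 64 : ℕ) : ℝ) < Rp s s' w n) (N * (64 * (NY * Q ^ m))) := by
  classical
  have h1 : ∀ n ∈ range N, ∀ c ∈ ((Finset.univ : Finset (Finset (Fin 3) × Finset (Fin 3)))),
      PrLe K (fun w => ∃ T ⊆ YY s s' n, T.card = m + 1 ∧ (∀ y ∈ T, isHit s s' n w y) ∧
        Set.InjOn hz (T : Set Hit) ∧ Pat c.1 c.2 T) (NY * Q ^ m) := by
    intro n hn c _
    have hNY' := hNY n (Finset.mem_range.mp hn)
    rcases h n c.1 c.2 with hv | hr
    · apply Pool.Agent.Helper53.TF.PrLe_mono (B := fun _ => False) (ε := 0)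
      · rintro r hr ⟨T, hT, hTc, hhit, hinj, hP⟩
        have := hv T hT (cpt_of_hits (Pool.Agent.Helper53.TF.ext_lt hr) hhit hP) hP hinj
        omega
      · exact mul_nonneg ((Nat.cast_nonneg _).trans hNY') (pow_nonneg hQ _)
      · exact Pool.Agent.Helper53.TF.PrLe_false (fun _ _ h => h) le_rfl
    · have h2 := pattern_prob n hs K hK hK' c.1 c.2 (YY s s' n)
        (fun y hy => ⟨(mem_YY.mp hy).2.2.2.1, (mem_YY.mp hy).2.2.2.2.1⟩) Q (by
          intro y hy
          exact hr y hy) m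
      refine Pool.Agent.Helper53.TF.PrLe_mono ?_ ?_ h2
      · rintro r _ ⟨T, hT, hTc, hhit, _, hP⟩
        exact ⟨T, hT, hTc, hhit, hP⟩
      · exact mul_le_mul_of_nonneg_right hNY' (pow_nonneg hQ _)
  have h2 := Pool.Agent.Helper53.TF.PrLe_exists (range N)
    (fun n hn => Pool.Agent.Helper53.TF.PrLe_exists _ (h1 n hn))
  refine Pool.Agent.Helper53.TF.PrLe_mono ?_ ?_ h2
  · rintro r _ ⟨n, hn⟩
    have hnN : n < N := by
      by_contra hcon
      rw [hN n _ (not_lt.mp hcon)] at hn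
      have h0 : (0 : ℝ) ≤ (((m + 1) ^ 64 : ℕ) : ℝ) := Nat.cast_nonneg _
      rw [Nat.cast_zero] at hn
      exact absurd h0 (not_le.mpr hn)
    obtain ⟨T, hT, hTc, hhit, hinj⟩ := hits_of_Rp s s' n (Helper5.ET.ext K r)
    have hcard : (m + 1) ^ 64 ≤ T.card := by
      rw [hTc]
      exact_mod_cast hn.le
    obtain ⟨C, C', T', hT', hc', hP⟩ := exists_Pat T (m + 1) (by omega) hcard
    exact ⟨n, Finset.mem_range.mpr hnN, (C, C'), Finset.mem_univ _, T', hT'.trans hT, hc',
      fun y hy => hhit y (hT' hy), hinj.mono (Finset.coe_subset.mpr hT'), hP⟩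
  · rw [Finset.sum_const, Finset.sum_const, nsmul_eq_mul, nsmul_eq_mul, Finset.card_range]
    apply le_of_eq
    congr 2

/-! ## sizes -/

theorem Nj_le_exp (y : ℕ) : (Nj y : ℝ) ≤ Real.exp (42 * y) := by
  have h1 : Nj y ≤ ∏ _f : Fin 3, 1000037 ^ y := by
    unfold Nj NN
    apply Finset.prod_le_prod' (fun f _ => ?_)
    calc pr f ^ av y f ≤ 1000037 ^ av y f := by
          apply Nat.pow_le_pow_left
          fin_cases f <;> simp [pr]
      _ ≤ 1000037 ^ y := Nat.pow_le_pow_right (by norm_num) (Helper36.T4.cnt_le f y)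
  rw [Finset.prod_const, Finset.card_univ, Fintype.card_fin, ← pow_mul] at h1
  have h2 : (1000037 : ℝ) ≤ Real.exp 14 := by
    have h3 : Real.exp 14 = (Real.exp 1) ^ 14 := by
      rw [← Real.exp_nat_mul]
      norm_num
    rw [h3]
    have h4 : (2.718 : ℝ) ≤ Real.exp 1 := by
      have := Real.exp_one_gt_d9
      linarith
    calc (1000037 : ℝ) ≤ 2.718 ^ 14 := by norm_num
      _ ≤ _ := pow_le_pow_left₀ (by norm_num) h4 14
  calc (Nj y : ℝ) ≤ ((1000037 ^ (y * 3) : ℕ) : ℝ) := by exact_mod_cast h1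
    _ = (1000037 : ℝ) ^ (y * 3) := by push_cast; rfl
    _ ≤ (Real.exp 14) ^ (y * 3) := pow_le_pow_left₀ (by norm_num) h2 _
    _ = Real.exp (42 * y) := by
        rw [← Real.exp_nat_mul]
        congr 1
        push_cast
        ring

theorem card_XX_le (s : ℕ) : (XX s).card ≤ Nj (sl s) := by
  unfold XX Nj NN
  rw [Fintype.card_piFinset]
  apply Finset.prod_le_prod' (fun f _ => ?_)
  refine (Finset.card_filter_le _ _).trans ?_
  rw [Finset.card_range]
  exact le_rfl

theorem vhi_le (s : ℕ) : vhi s ≤ Nj (sk (s + 1)) :=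
  (Nat.div_le_self _ _).trans (Nat.sub_le _ _)

theorem card_YY_le (s s' n : ℕ) : (YY s s' n).card ≤
    (n + 1) * (vhi s * (vhi s' * ((XX s).card * (XX s').card))) := by
  unfold YY
  refine (Finset.card_filter_le _ _).trans ?_
  rw [Finset.card_product, Finset.card_product, Finset.card_product, Finset.card_product,
    Finset.card_range, Finset.card_range, Finset.card_range]

theorem Rp_eq_zero {s s' n : ℕ} (w : Key → ℕ)
    (hn : Nj (sk (s + 1)) + Nj (sk (s' + 1)) ≤ n) : Rp s s' w n = 0 := by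
  obtain ⟨T, hT, hTc, hhit, _⟩ := hits_of_Rp s s' n w
  rw [← hTc, Finset.card_eq_zero, Finset.eq_empty_iff_forall_notMem]
  intro y hy
  have h1 := hhit y hy
  have h2 := mem_YY.mp (hT hy)
  have h3 := el_lt (w := w) (x := hx1 y) h2.2.1
  have h4 := el_lt (w := w) (x := hx2 y) h2.2.2.1
  have h5 := h1.1
  have h6 := h1.2
  omega

/-- the two-sided half of `macro_block` from the pattern alternative -/
theorem macro_two (θ : ℝ)
    (hpat : ∀ c0 : ℝ, 0 < c0 → ∃ (c : ℝ) (k0 s0 : ℕ), 0 < c ∧ ∀ s s' : ℕ, s0 ≤ s →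
      c0 * sl s ≤ (sl s : ℝ) - sl s' → θ * sl s ≤ sl s' →
      ∀ n, ∀ C C' : Finset (Fin 3),
        VoidC s s' n k0 C C' ∨ RareC s s' n (Real.exp (-(c * sl s))) C C') :
    ∀ c0 : ℝ, 0 < c0 → ∃ (C : ℝ) (s0 : ℕ), ∀ s s' : ℕ, s0 ≤ s →
      c0 * sl s ≤ (sl s : ℝ) - sl s' → θ * sl s ≤ sl s' →
      ∀ K : Finset Key, keysOf s ⊆ K → keysOf s' ⊆ K →
        PrLe K (fun w => ∃ n, C < Rp s s' w n) (Real.exp (-(Real.sqrt (sl s)))) := by
  intro c0 hc0
  obtain ⟨c, k0, s0, hc, hp⟩ := hpat c0 hc0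
  obtain ⟨s1, h1⟩ := Helper36.T4.state_close 1 one_pos
  obtain ⟨m0, hm0⟩ := exists_nat_ge (600 / c)
  refine ⟨(((max k0 m0 + 1) ^ 64 : ℕ) : ℝ), max s0 s1, ?_⟩
  intro s s' hs hl hθ K hK hK'
  have hs0 : s0 ≤ s := (le_max_left _ _).trans hs
  have hs1 : s1 ≤ s := (le_max_right _ _).trans hs
  have hlpos : (2 : ℝ) ^ 64 ≤ sl s := by
    have h2 : bb 0 ≤ sl s := tau_mono (Nat.zero_le _)
    have h3 : bb 0 = 2 ^ 64 := rfl
    rw [h3] at h2
    exact_mod_cast h2
  have hlt : sl s' < sl s := by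
    have h2 : (0 : ℝ) < c0 * sl s := mul_pos hc0 (by linarith)
    have h3 : (sl s' : ℝ) < sl s := by linarith
    exact_mod_cast h3
  have hss : s' < s := by
    by_contra hcon
    exact absurd (sl_mono (not_lt.mp hcon)) (not_le.mpr hlt)
  set B : ℝ := (Nj (sk (s + 1)) : ℝ) with hB
  have hB1 : B ≤ Real.exp (84 * sl s) := by
    refine (Nj_le_exp _).trans (Real.exp_le_exp.mpr ?_)
    have := (h1 s hs1).2.2.2
    linarith
  have hB0 : 1 ≤ B := by
    rw [hB]
    exact_mod_cast Nj_pos (sk (s + 1))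
  have hk' : Nj (sk (s' + 1)) ≤ Nj (sk (s + 1)) := by
    apply Nj_mono
    exact (sk_strictMono.monotone (by omega))
  have hmain := macro_ofC (s := s) (s' := s') (by omega) K hK hK' k0 (max k0 m0)
    (Nj (sk (s + 1)) + Nj (sk (s' + 1))) (Real.exp (-(c * sl s))) ((2 * B) * (B * (B * (B * B))))
    (Real.exp_pos _).le (le_max_left _ _) (fun n w hn => Rp_eq_zero w hn) ?_
    (hp s s' hs0 hl hθ)
  · refine Pool.Agent.Helper53.TF.PrLe_mono (fun _ _ h => h) ?_ hmain
    have hN : ((Nj (sk (s + 1)) + Nj (sk (s' + 1)) : ℕ) : ℝ) ≤ 2 * B := by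
      push_cast
      have : (Nj (sk (s' + 1)) : ℝ) ≤ B := by
        rw [hB]
        exact_mod_cast hk'
      linarith
    have hpow : (Real.exp (-(c * sl s))) ^ (max k0 m0) ≤ Real.exp (-(600 * sl s)) := by
      rw [← Real.exp_nat_mul]
      apply Real.exp_le_exp.mpr
      have h2 : (600 / c : ℝ) ≤ ((max k0 m0 : ℕ) : ℝ) :=
        hm0.trans (by exact_mod_cast le_max_right _ _)
      have h3 : 600 ≤ ((max k0 m0 : ℕ) : ℝ) * c := by
        rw [div_le_iff₀ hc] at h2
        exact h2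
      nlinarith
    calc _ ≤ (2 * B) * (64 * ((2 * B) * (B * (B * (B * B))) * Real.exp (-(600 * sl s)))) := by
          apply mul_le_mul hN _ (by positivity) (by positivity)
          apply mul_le_mul_of_nonneg_left _ (by norm_num)
          exact mul_le_mul_of_nonneg_left hpow (by positivity)
      _ = 256 * B ^ 6 * Real.exp (-(600 * sl s)) := by ring
      _ ≤ Real.exp 6 * (Real.exp (84 * sl s)) ^ 6 * Real.exp (-(600 * sl s)) := by
          apply mul_le_mul_of_nonneg_right _ (Real.exp_pos _).le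
          apply mul_le_mul _ (pow_le_pow_left₀ (by linarith) hB1 6) (by positivity)
            (Real.exp_pos _).le
          have h3 : Real.exp 6 = (Real.exp 1) ^ 6 := by
            rw [← Real.exp_nat_mul]
            norm_num
          rw [h3]
          have h4 : (2.7 : ℝ) ≤ Real.exp 1 := by
            have := Real.exp_one_gt_d9
            linarith
          calc (256 : ℝ) ≤ 2.7 ^ 6 := by norm_num
            _ ≤ _ := pow_le_pow_left₀ (by norm_num) h4 6
      _ = Real.exp (6 + 6 * (84 * sl s) - 600 * sl s) := by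
          rw [← Real.exp_nat_mul, ← Real.exp_add, ← Real.exp_add]
          congr 1
      _ ≤ Real.exp (-(Real.sqrt (sl s))) := by
          apply Real.exp_le_exp.mpr
          have h5 : Real.sqrt (sl s) ≤ sl s := by
            rw [Real.sqrt_le_left (by linarith)]
            nlinarith
          linarith
  · intro n hn
    have h2 := card_YY_le s s' n
    have h3 : ((YY s s' n).card : ℝ) ≤
        ((n + 1 : ℕ) : ℝ) * ((vhi s : ℝ) * ((vhi s' : ℝ) * (((XX s).card : ℝ) * ((XX s').card : ℝ)))) := by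
      exact_mod_cast h2
    refine h3.trans ?_
    have e1 : ((n + 1 : ℕ) : ℝ) ≤ 2 * B := by
      have h4 : ((n + 1 : ℕ) : ℝ) ≤ ((Nj (sk (s + 1)) + Nj (sk (s' + 1)) : ℕ) : ℝ) := by
        exact_mod_cast hn
      have h5 : (Nj (sk (s' + 1)) : ℝ) ≤ B := by
        rw [hB]
        exact_mod_cast hk'
      push_cast at h4 ⊢
      linarith
    have e2 : (vhi s : ℝ) ≤ B := by
      rw [hB]
      exact_mod_cast vhi_le s
    have e3 : (vhi s' : ℝ) ≤ B := by
      rw [hB]
      exact_mod_cast (vhi_le s').trans hk'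
    have e4 : ((XX s).card : ℝ) ≤ B := by
      rw [hB]
      exact_mod_cast (card_XX_le s).trans (Nj_mono (sl_le_sk_succ s))
    have e5 : ((XX s').card : ℝ) ≤ B := by
      rw [hB]
      exact_mod_cast (card_XX_le s').trans ((Nj_mono (sl_le_sk_succ s')).trans hk')
    have hB' : (0 : ℝ) ≤ B := by linarith
    gcongr

end Pool.Agent.Helper25.T4
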