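import Pool.Agent.Helper25.T4.Phs
import Pool.Agent.Helper25.T4.Macro
import Pool.Agent.Helper29.T4.Conv
import Pool.Agent.Helper29.T4.TabAll
import Pool.Agent.Helper36.T4.Win2
import Pool.Agent.Helper36.T4.Win3
import Pool.Agent.Helper97.T4.Win
import Pool.Agent.Helper53.TF.OneFinal
import Pool.Agent.Helper98.T4.Void

/-!
# T4', block F: assembly
-/

namespace Pool.Agent.Helper25.T4

open Finset Pool.Agent.Helper27.T4 Pool.Agent.Helper5.ET Pool.Agent.Helper36.T4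
  Pool.Agent.Helper29.T4
open Pool.Agent.Helper98.T4 (al)

theorem sl_ge_bb (s : ℕ) : bb 0 ≤ sl s := tau_mono (Nat.zero_le _)

/-- the relative position in the era -/
noncomputable def xp (l : ℕ) : ℝ :=
  ((l : ℝ) - bb (era l)) / ((bb (era l + 1) : ℝ) - bb (era l))

theorem xp_den (l : ℕ) : 0 < (bb (era l + 1) : ℝ) - bb (era l) := by
  have : (bb (era l) : ℝ) < bb (era l + 1) := by exact_mod_cast bb_lt_succ (era l)
  linarith

theorem xp_bounds {l : ℕ} (h : bb 0 ≤ l) : (Tab.p0 (phz l) : ℝ) / 15 ≤ xp l ∧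
    xp l ≤ (Tab.p1 (phz l) : ℝ) / 15 := by
  obtain ⟨h1, h2⟩ := phz_posR h
  have h3 := xp_den l
  unfold xp
  constructor
  · rw [le_div_iff₀ h3]
    linarith
  · rw [div_le_iff₀ h3]
    linarith

theorem xp_mono {l l' : ℕ} (he : era l = era l') (h : l' ≤ l) : xp l' ≤ xp l := by
  have h3 := xp_den l'
  unfold xp
  rw [he]
  apply div_le_div_of_nonneg_right _ h3.le
  have : (l' : ℝ) ≤ l := by exact_mod_cast h
  linarith

/-- the alternative of the table for two positions -/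
theorem alt_pos {l l' d : ℕ} {u : ℝ} (h0 : bb 0 ≤ l') (h : l' ≤ l) (hd : era l = era l' + d)
    (hd4 : d ≤ 4) (hu : 0 ≤ u)
    (hW : ∀ t ≤ d + 3, |Wk (era l') t - u * Tab.wn d t| ≤ u * Tab.wn d t / 1000)
    (C C' : Finset (Fin 3)) :
    Tab.Alt d (phz l) (phz l') (mask8 (era l) C) (mask8 (era l) C') (Wk (era l'))
      (xp l) (xp l') := by
  obtain ⟨a1, a2⟩ := xp_bounds (h0.trans h)
  obtain ⟨b1, b2⟩ := xp_bounds h0
  refine Tab.alt_of_pos hd4 (phz_lt l) (phz_lt l') ?_ (mask8_lt _ _) (mask8_lt _ _) _ u hu hW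
    _ _ a1 a2 b1 b2 ?_
  · intro h1
    exact phz_mono (by rw [hd, h1, Nat.add_zero]) h
  · intro h1 _
    exact xp_mono (by rw [hd, h1, Nat.add_zero]) h

/-- the sizes in the state `s` -/
theorem al_x {l' l d i : ℕ} (h0 : bb 0 ≤ l) (hd : era l = era l' + d) (hi : i < 3) :
    al (fk (era l + i)) l = Helper36.T4.lamR d (Wk (era l')) (xp l) i := by
  have h1 := era_spec l h0
  have h2 := al_pos (era l') d l i hi (by rw [← hd]; exact h1.1) (by rw [← hd]; exact h1.2.le)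
  rw [← hd] at h2
  rw [h2]
  rfl

theorem al_y {l' i : ℕ} (h0 : bb 0 ≤ l') (hi : i < 3) :
    al (fk (era l' + i)) l' = Helper36.T4.lamR 0 (Wk (era l')) (xp l') i := by
  have h1 := era_spec l' h0
  exact al_pos (era l') 0 l' i hi h1.1 h1.2.le

/-- the sizes in the state `s'` relative to the era of `s` -/
theorem al_y2 {l' d i : ℕ} (h0 : bb 0 ≤ l') :
    al (fk (era l' + d + i)) l' = Tab.lamS d (Wk (era l')) (xp l') i := by
  have e : fk (era l' + d + i) = fk (era l' + (i + d) % 3) := by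
    rw [← fk_add_mod, show era l' + d + i = era l' + (i + d) by ring]
  rw [e, al_y h0 (Nat.mod_lt _ (by norm_num))]
  rfl

/-- lower bound for the growth of the modulus -/
theorem log_Nj_ge {y z : ℕ} (h : y ≤ z) :
    Real.log (Nj y) + 13 * ((z : ℝ) - y) ≤ Real.log (Nj z) := by
  rw [log_Nj, log_Nj]
  have hs1 : ∑ f : Fin 3, (cnt f y : ℝ) = y := by exact_mod_cast cnt_total y
  have hs2 : ∑ f : Fin 3, (cnt f z : ℝ) = z := by exact_mod_cast cnt_total z
  rw [← hs1, ← hs2, ← Finset.sum_sub_distrib, Finset.mul_sum, ← Finset.sum_add_distrib]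
  apply Finset.sum_le_sum
  intro f _
  have h2 := (log_pr f).1
  have h3 : (cnt f y : ℝ) ≤ cnt f z := by exact_mod_cast cnt_mono f h
  nlinarith

/-- THE PATTERN ALTERNATIVE: every pattern is void or rare -/
theorem pat_alt (c0 : ℝ) (hc0 : 0 < c0) : ∃ (c : ℝ) (k0 s0 : ℕ), 0 < c ∧ ∀ s s' : ℕ, s0 ≤ s →
    c0 * sl s ≤ (sl s : ℝ) - sl s' → (1 / 5 : ℝ) * sl s ≤ sl s' →
    ∀ n, ∀ C C' : Finset (Fin 3),
      VoidC s s' n k0 C C' ∨ RareC s s' n (Real.exp (-(c * sl s))) C C' := by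
  obtain ⟨k1, hk1⟩ := Pool.Agent.Helper97.T4.win
  obtain ⟨s1, hs1⟩ := era_large k1
  obtain ⟨s2, hs2⟩ := large_of_theta s1
  obtain ⟨s3, hs3⟩ := states_small (c0 / 100) (by positivity)
  obtain ⟨m, hm⟩ := exists_nat_gt (14600 / c0)
  refine ⟨c0 / 100, 10 ^ 7, max (max s2 s3) (2 * m), by positivity, ?_⟩
  intro s s' hs hl hθ n C C'
  have hs2' : s2 ≤ s := (le_max_left _ _).trans ((le_max_left _ _).trans hs)
  have hs3' : s3 ≤ s := (le_max_right _ _).trans ((le_max_left _ _).trans hs)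
  have hm' : 2 * m ≤ s := (le_max_right _ _).trans hs
  have hl0 : (0 : ℝ) ≤ sl s := Nat.cast_nonneg _
  have hθ' : (199 / 1000 : ℝ) * sl s ≤ sl s' := by linarith
  have hss : sl s' ≤ sl s := by
    have h1 : 0 ≤ c0 * sl s := mul_nonneg hc0.le hl0
    have h2 : (sl s' : ℝ) ≤ sl s := by linarith
    exact_mod_cast h2
  have hbig : (14600 : ℝ) / c0 ≤ sl s := by
    have h1 : m ≤ sl s := (show m ≤ s / 2 by omega).trans (sl_ge_half s)
    have h2 : (m : ℝ) ≤ sl s := by exact_mod_cast h1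
    linarith
  rw [div_le_iff₀ hc0] at hbig
  have hk' : k1 ≤ era (sl s') := hs1 s' (hs2 s s' hs2' hθ').2
  obtain ⟨w1, w2, w3⟩ := hs3 s s' hs3' hθ' hss
  obtain ⟨d, hd⟩ := Nat.exists_eq_add_of_le (era_mono hss)
  have hd4 : d ≤ 4 := by
    have := era_dist (sl s) (sl s') (sl_ge_bb s') (sl_ge_bb s) hθ'
    omega
  have hA := alt_pos (u := Pool.Agent.Helper97.T4.uu (era (sl s')) d) (sl_ge_bb s') hss hd hd4
    (by
      unfold Pool.Agent.Helper97.T4.uu
      have : 0 ≤ Real.log 1000003 := Real.log_nonneg (by norm_num)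
      positivity)
    (fun t ht => hk1 _ hk' d hd4 t ht) C C'
  have hA1 := log_Nj_ge hss
  refine conv hss n (K := era (sl s)) (fun i hi => al_x (sl_ge_bb s) hd hi) ?_
    (fun i hi => frs_iff _ _ i hi) ?_ (fun i hi => bit_iff _ _ i hi)
    (fun i hi => bit_iff _ _ i hi) (c0 / 100 * sl s) (c0 / 100 * sl s) (c0 / 100 * sl s)
    (c0 / 100 * sl s) w2 w3 ?_ (by positivity) (by positivity) (by positivity) (by positivity)
    ?_ hA
  · intro i _
    rw [hd]
    exact al_y2 (sl_ge_bb s')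
  · intro i _
    rw [hd]
    exact frs_iff2 _ _ _ i
  · rw [sum_al]
    exact w1
  · rw [sum_al, sum_al]
    nlinarith

/-- BLOCK F -/
theorem macro_block : ∃ θ η : ℝ, 0 < θ ∧ 0 < η ∧
    (∀ c0 : ℝ, 0 < c0 → ∃ (C : ℝ) (s0 : ℕ), ∀ s s' : ℕ, s0 ≤ s →
      c0 * sl s ≤ (sl s : ℝ) - sl s' → θ * sl s ≤ sl s' →
      ∀ K : Finset Key, keysOf s ⊆ K → keysOf s' ⊆ K →
        PrLe K (fun w => ∃ n, C < Rp s s' w n) (Real.exp (-(Real.sqrt (sl s))))) ∧
    (∃ (C : ℝ) (s0 : ℕ), ∀ s ≥ s0, ∀ j : ℕ, (j : ℝ) ≤ (θ + η) * sl s →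
      ∀ K : Finset Key, keysOf s ⊆ K →
        PrLe K (fun w => ∃ y, C < (((AA s w).filter (fun a => y ≤ a ∧ a < y + Nj j)).card : ℝ))
          (Real.exp (-(Real.sqrt (sl s))))) := by
  refine ⟨1 / 5, 1 / 200, by norm_num, by norm_num, macro_two (1 / 5) pat_alt, ?_⟩
  exact Pool.Agent.Helper53.TF.one_sided_block (by norm_num)

end Pool.Agent.Helper25.T4
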