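import Pool.Agent.Helper25.T4.Pattern
import Pool.Agent.Helper53.TF.Cond
import Pool.Agent.Helper29.T4.Pat

/-!
# T4', macroscopic pairs: from many representations to a family of hits with a pattern
-/

namespace Pool.Agent.Helper25.T4

open Finset Pool.Agent.Helper27.T4 Pool.Agent.Helper5.ET

/-- the candidates for hits for `n` -/
def YY (s s' n : ℕ) : Finset Hit :=
  ((range (n + 1)) ×ˢ (range (vhi s)) ×ˢ (range (vhi s')) ×ˢ (XX s) ×ˢ (XX s')).filter
    (fun y => n < hz y + Nj (sk (s' + 1)) ∧ Nj (sl s) * hv1 y ≤ hz y ∧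
      Nj (sl s') * hv2 y ≤ n - hz y)

theorem mem_YY {s s' n : ℕ} {y : Hit} : y ∈ YY s s' n ↔ hz y ≤ n ∧ hv1 y < vhi s ∧
    hv2 y < vhi s' ∧ hx1 y ∈ XX s ∧ hx2 y ∈ XX s' ∧ n < hz y + Nj (sk (s' + 1)) ∧
      Nj (sl s) * hv1 y ≤ hz y ∧ Nj (sl s') * hv2 y ≤ n - hz y := by
  unfold YY
  rw [Finset.mem_filter, Finset.mem_product, Finset.mem_product, Finset.mem_product,
    Finset.mem_product, Finset.mem_range, Finset.mem_range, Finset.mem_range, Nat.lt_succ_iff]
  tauto

theorem el_lt {s : ℕ} {w : Key → ℕ} {x : Fin 3 → ℕ} {v : ℕ} (hv : v < vhi s) :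
    el s w x v < Nj (sk (s + 1)) := by
  have h1 : code s w x < Nj (se s) := cv_lt pr_prime pr_inj (av (se s)) (cmp s w x)
  have h2 : Nj (sl s) * vhi s ≤ Nj (sk (s + 1)) - Nj (se s) := Nat.mul_div_le _ _
  have h3 : Nj (sl s) * (v + 1) ≤ Nj (sl s) * vhi s := Nat.mul_le_mul_left _ hv
  have h4 := Nj_pos (sl s)
  rw [Nat.mul_add, Nat.mul_one] at h3
  unfold el
  omega

/-- the representations give hits with different `z` -/
theorem hits_of_Rp (s s' n : ℕ) (w : Key → ℕ) : ∃ T ⊆ YY s s' n, T.card = Rp s s' w n ∧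
    (∀ y ∈ T, isHit s s' n w y) ∧ Set.InjOn hz (T : Set Hit) := by
  classical
  have hex : ∀ q ∈ (AA s w ×ˢ AA s' w).filter (fun q => q.1 + q.2 = n),
      ∃ y : Hit, y ∈ YY s s' n ∧ isHit s s' n w y ∧ hz y = q.1 := by
    intro q hq
    rw [Finset.mem_filter, Finset.mem_product] at hq
    obtain ⟨⟨hq1, hq2⟩, hqn⟩ := hq
    unfold AA at hq1 hq2
    rw [Finset.mem_image] at hq1 hq2
    obtain ⟨⟨x, v⟩, hxv, h1⟩ := hq1
    obtain ⟨⟨x', v'⟩, hxv', h2⟩ := hq2
    rw [Finset.mem_product] at hxv hxv'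
    have hv : v < vhi s := by
      have := hxv.2
      unfold VV at this
      exact (Finset.mem_Ico.mp (Finset.mem_filter.mp this).1).2
    have hv' : v' < vhi s' := by
      have := hxv'.2
      unfold VV at this
      exact (Finset.mem_Ico.mp (Finset.mem_filter.mp this).1).2
    simp only at h1 h2
    refine ⟨(q.1, v, v', x, x'), ?_, ⟨h1.symm, by rw [← hqn]; exact congrArg _ h2.symm⟩, rfl⟩
    rw [mem_YY]
    have h3 := el_lt (w := w) (x := x') hv'
    rw [h2] at h3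
    have h4 : q.1 = code s w x + Nj (sl s) * v := h1.symm
    have h5 : q.2 = code s' w x' + Nj (sl s') * v' := h2.symm
    refine ⟨?_, hv, hv', hxv.1, hxv'.1, ?_, ?_, ?_⟩
    · show q.1 ≤ n
      omega
    · show n < q.1 + Nj (sk (s' + 1))
      omega
    · show Nj (sl s) * v ≤ q.1
      omega
    · show Nj (sl s') * v' ≤ n - q.1
      omega
  choose! φ hφ using hex
  refine ⟨((AA s w ×ˢ AA s' w).filter (fun q => q.1 + q.2 = n)).image φ, ?_, ?_, ?_, ?_⟩
  · intro y hy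
    rw [Finset.mem_image] at hy
    obtain ⟨q, hq, rfl⟩ := hy
    exact (hφ q hq).1
  · unfold Rp
    apply Finset.card_image_of_injOn
    intro q hq q' hq' h
    have h1 := (hφ q hq).2.2
    have h2 := (hφ q' hq').2.2
    rw [h, h2] at h1
    have h3 := (Finset.mem_filter.mp (Finset.mem_coe.mp hq)).2
    have h4 := (Finset.mem_filter.mp (Finset.mem_coe.mp hq')).2
    apply Prod.ext
    · exact h1.symm
    · omega
  · intro y hy
    rw [Finset.mem_image] at hy
    obtain ⟨q, hq, rfl⟩ := hy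
    exact (hφ q hq).2.1
  · intro y hy z hz' h
    rw [Finset.mem_coe, Finset.mem_image] at hy hz'
    obtain ⟨q, hq, rfl⟩ := hy
    obtain ⟨q', hq', rfl⟩ := hz'
    have h1 := (hφ q hq).2.2
    have h2 := (hφ q' hq').2.2
    have h5 : hz (φ q) = hz (φ q') := h
    rw [h1, h2] at h5
    have h3 := (Finset.mem_filter.mp hq).2
    have h4 := (Finset.mem_filter.mp hq').2
    have : q = q' := Prod.ext h5 (by omega)
    rw [this]

/-- many hits contain `k` hits with a pattern -/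
theorem exists_Pat (T : Finset Hit) (k : ℕ) (hk : 1 ≤ k) (hT : k ^ 64 ≤ T.card) :
    ∃ C C' : Finset (Fin 3), ∃ T' ⊆ T, T'.card = k ∧ Pat C C' T' := by
  classical
  obtain ⟨T', hT', hc, h⟩ := Pool.Agent.Helper29.T4.exists_pattern
    (Finset.univ : Finset (Bool × Fin 3))
    (fun i (y : Hit) => if i.1 then hx1 y i.2 else hx2 y i.2) k hk T (by
      refine le_trans (le_of_eq ?_) hT
      congr 1)
  refine ⟨univ.filter (fun f => ∀ y ∈ T', ∀ z ∈ T', hx1 y f = hx1 z f),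
    univ.filter (fun f => ∀ y ∈ T', ∀ z ∈ T', hx2 y f = hx2 z f), T', hT', hc, ?_, ?_, ?_, ?_⟩
  · intro y hy z hz f hf
    exact (Finset.mem_filter.mp hf).2 y hy z hz
  · intro y hy z hz f hf
    exact (Finset.mem_filter.mp hf).2 y hy z hz
  · intro f hf
    rcases h (true, f) (Finset.mem_univ _) with h1 | h1
    · exfalso
      apply hf
      rw [Finset.mem_filter]
      exact ⟨Finset.mem_univ _, fun y hy z hz => by simpa using h1 y hy z hz⟩
    · simpa using h1
  · intro f hf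
    rcases h (false, f) (Finset.mem_univ _) with h1 | h1
    · exfalso
      apply hf
      rw [Finset.mem_filter]
      exact ⟨Finset.mem_univ _, fun y hy z hz => by simpa using h1 y hy z hz⟩
    · simpa using h1

/-- the weight of the fresh keys of a pattern -/
noncomputable def Wt (s s' : ℕ) (C C' : Finset (Fin 3)) : ℝ :=
  (∏ f ∈ frs (sl s) C, ((pr f : ℝ) ^ cnt f (se s))⁻¹) *
    ∏ f ∈ frs (sl s') C', ((pr f : ℝ) ^ cnt f (se s'))⁻¹

/-- a pattern which allows at most `K1` hits -/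
def Void (s s' K1 : ℕ) (C C' : Finset (Fin 3)) : Prop :=
  ∀ (n : ℕ) (w : Key → ℕ), (∀ k, w k < Mk k) → ∀ T ⊆ YY s s' n, (∀ y ∈ T, isHit s s' n w y) →
    Set.InjOn hz (T : Set Hit) → Pat C C' T → T.card ≤ K1

open Classical in
/-- a pattern for which the expected number of hits is at most `Q` -/
def Rare (s s' : ℕ) (Q : ℝ) (C C' : Finset (Fin 3)) : Prop :=
  ∀ n, ∀ y ∈ YY s s' n, (((YY s s' n).filter (Cpt s s' n C C' y)).card : ℝ) * Wt s s' C C' ≤ Q

/-- the assembly: every pattern is void or rare -/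
theorem macro_of {s s' : ℕ} (hs : s ≠ s') (K : Finset Key) (hK : keysOf s ⊆ K)
    (hK' : keysOf s' ⊆ K) (K1 m N : ℕ) (Q NY : ℝ) (hQ : 0 ≤ Q) (hK1 : K1 ≤ m)
    (hN : ∀ n w, N ≤ n → Rp s s' w n = 0) (hNY : ∀ n < N, ((YY s s' n).card : ℝ) ≤ NY)
    (h : ∀ C C' : Finset (Fin 3), Void s s' K1 C C' ∨ Rare s s' Q C C') :
    PrLe K (fun w => ∃ n, (((m + 1) ^ 64 : ℕ) : ℝ) < Rp s s' w n) (N * (64 * (NY * Q ^ m))) := by
  classical
  have h1 : ∀ n ∈ range N, ∀ c ∈ ((Finset.univ : Finset (Finset (Fin 3) × Finset (Fin 3)))),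
      PrLe K (fun w => ∃ T ⊆ YY s s' n, T.card = m + 1 ∧ (∀ y ∈ T, isHit s s' n w y) ∧
        Set.InjOn hz (T : Set Hit) ∧ Pat c.1 c.2 T) (NY * Q ^ m) := by
    intro n hn c _
    have hNY' := hNY n (Finset.mem_range.mp hn)
    rcases h c.1 c.2 with hv | hr
    · apply Pool.Agent.Helper53.TF.PrLe_mono (B := fun _ => False) (ε := 0)
      · rintro r hr ⟨T, hT, hTc, hhit, hinj, hP⟩
        have := hv n _ (Pool.Agent.Helper53.TF.ext_lt hr) T hT hhit hinj hP
        omega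
      · exact mul_nonneg ((Nat.cast_nonneg _).trans hNY') (pow_nonneg hQ _)
      · exact Pool.Agent.Helper53.TF.PrLe_false (fun _ _ h => h) le_rfl
    · have h2 := pattern_prob n hs K hK hK' c.1 c.2 (YY s s' n)
        (fun y hy => ⟨(mem_YY.mp hy).2.2.2.1, (mem_YY.mp hy).2.2.2.2.1⟩) Q (by
          intro y hy
          exact hr n y hy) m
      refine Pool.Agent.Helper53.TF.PrLe_mono ?_ ?_ h2
      · rintro r _ ⟨T, hT, hTc, hhit, _, hP⟩
        exact ⟨T, hT, hTc, hhit, hP⟩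
      · exact mul_le_mul_of_nonneg_right hNY' (pow_nonneg hQ _)
  have h2 := Pool.Agent.Helper53.TF.PrLe_exists (range N)
    (fun n hn => Pool.Agent.Helper53.TF.PrLe_exists _ (h1 n hn))
  refine Pool.Agent.Helper53.TF.PrLe_mono ?_ ?_ h2
  · rintro r _ ⟨n, hn⟩
    have hnN : n < N := by
      by_contra hcon
      rw [hN n _ (not_lt.mp hcon)] at hn
      have h0 : (0 : ℝ) ≤ (((m + 1) ^ 64 : ℕ) : ℝ) := Nat.cast_nonneg _
      rw [Nat.cast_zero] at hn
      exact absurd h0 (not_le.mpr hn)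
    obtain ⟨T, hT, hTc, hhit, hinj⟩ := hits_of_Rp s s' n (Helper5.ET.ext K r)
    have hcard : (m + 1) ^ 64 ≤ T.card := by
      rw [hTc]
      exact_mod_cast hn.le
    obtain ⟨C, C', T', hT', hc', hP⟩ := exists_Pat T (m + 1) (by omega) hcard
    exact ⟨n, Finset.mem_range.mpr hnN, (C, C'), Finset.mem_univ _, T', hT'.trans hT, hc',
      fun y hy => hhit y (hT' hy), hinj.mono (Finset.coe_subset.mpr hT'), hP⟩
  · rw [Finset.sum_const, Finset.sum_const, nsmul_eq_mul, nsmul_eq_mul, Finset.card_range]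
    apply le_of_eq
    congr 2

end Pool.Agent.Helper25.T4
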