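import Pool.Agent.Helper5.ET.Defs

/-!
# T4', macroscopic pairs: the keys of a family of hits with a pattern

A hit for `n` is `(z, v, v', x, x')` with `z = el s w x v` and `n = z + el s' w x' v'`.
`C`, `C'` are the constant coordinates of `x`, `x'` along a family of hits, all other coordinates
are pairwise distinct.  A family is fresh if one of the families hashing it is not constant.
-/

namespace Pool.Agent.Helper25.T4

open Finset Pool.Agent.Helper27.T4 Pool.Agent.Helper5.ET

/-! ## monotonicity facts -/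

theorem tau_mono : Monotone tau := monotone_nat_of_le_succ (fun _ => Nat.le_add_right _ _)

theorem cnt_mono (f : Fin 3) : Monotone (cnt f) := by
  intro y z h
  apply Finset.card_le_card
  apply Finset.filter_subset_filter
  exact Finset.range_subset_range.mpr h

theorem av_mono : Monotone av := fun _ _ h f => cnt_mono f h

theorem Nj_mono {y z : ℕ} (h : y ≤ z) : Nj y ≤ Nj z :=
  Nat.le_of_dvd (NN_pos pr_prime _) (NN_dvd pr (av_mono h))

theorem Nj_pos (y : ℕ) : 0 < Nj y := NN_pos pr_prime _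

theorem sl_le_se (s : ℕ) : sl s ≤ se s := tau_mono (by omega)

theorem se_le_sk (s : ℕ) : se s ≤ sk s := by
  unfold se sk
  split_ifs with h
  · rw [h]
    exact Nat.le_add_right _ _
  · have h1 : s % 2 = 1 := by omega
    rw [h1]
    exact Nat.le_add_right _ _

theorem sl_mono : Monotone sl := fun _ _ h => tau_mono (Nat.div_le_div_right h)

theorem sl_le_sk_succ (s : ℕ) : sl s ≤ sk (s + 1) :=
  (sl_mono (Nat.le_succ s)).trans ((sl_le_se _).trans (se_le_sk _))

/-! ## keys -/

/-- the key of the hash value of the family `f` at `x` -/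
def hkey (s : ℕ) (f : Fin 3) (x : Fin 3 → ℕ) : Key := (s, f.val, mask (pre (sl s) f) x)

theorem Mk_hkey (s : ℕ) (f : Fin 3) (x : Fin 3 → ℕ) : Mk (hkey s f x) = pr f ^ cnt f (se s) := by
  unfold Mk hkey
  rw [dif_pos (show f.val < 3 from f.isLt)]

theorem mask_le (P : Finset (Fin 3)) (x : Fin 3 → ℕ) (g : Fin 3) : mask P x g ≤ x g := by
  unfold mask
  split_ifs
  · exact le_rfl
  · exact Nat.zero_le _

theorem XX_lt {s : ℕ} {x : Fin 3 → ℕ} (hx : x ∈ XX s) (g : Fin 3) :
    x g < pr g ^ cnt g (sl s) := by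
  unfold XX at hx
  rw [Fintype.mem_piFinset] at hx
  exact Finset.mem_range.mp (Finset.mem_filter.mp (hx g)).1

theorem XX_coprime {s : ℕ} {x : Fin 3 → ℕ} (hx : x ∈ XX s) (g : Fin 3) :
    (x g).Coprime (pr g) := by
  unfold XX at hx
  rw [Fintype.mem_piFinset] at hx
  exact (Finset.mem_filter.mp (hx g)).2.2.1

theorem pow_le_Nj (g : Fin 3) (y : ℕ) : pr g ^ cnt g y ≤ Nj y :=
  Nat.le_of_dvd (Nj_pos y) (pow_dvd_NN pr (av y) g)

theorem hkey_mem {s : ℕ} {x : Fin 3 → ℕ} (hx : x ∈ XX s) (f : Fin 3) : hkey s f x ∈ keysOf s := by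
  unfold hkey keysOf
  rw [Finset.mem_product, Finset.mem_product, Finset.mem_singleton, Finset.mem_range,
    Fintype.mem_piFinset]
  refine ⟨rfl, (show f.val < 4 from lt_trans f.isLt (by norm_num)), ?_⟩
  intro g
  rw [Finset.mem_range, Nat.lt_succ_iff]
  exact (mask_le _ _ g).trans ((XX_lt hx g).le.trans ((pow_le_Nj g _).trans
    (Nj_mono (sl_le_sk_succ s))))

/-- the value of the hash key is determined by the code and `x f` -/
noncomputable def vl (s : ℕ) (f : Fin 3) (c : ℕ) (y : ℕ) : ℕ :=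
  ((c : ZMod (pr f ^ cnt f (se s))) - Lg (pr f) (cnt f (se s)) y).val

theorem key_eq {s : ℕ} {w : Key → ℕ} {x : Fin 3 → ℕ} (f : Fin 3)
    (hw : w (hkey s f x) < Mk (hkey s f x)) :
    w (hkey s f x) = vl s f (code s w x) (x f) := by
  have h1 : ((code s w x : ℕ) : ZMod (pr f ^ av (se s) f)) =
      Lg (pr f) (av (se s) f) (x f) + ((hv s w f x : ℕ) : ZMod (pr f ^ av (se s) f)) :=
    cv_cast_comp pr_prime pr_inj (av (se s)) (cmp s w x) f
  have h2 : ((code s w x : ℕ) : ZMod (pr f ^ cnt f (se s))) =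
      Lg (pr f) (cnt f (se s)) (x f) + ((w (hkey s f x) : ℕ) : ZMod (pr f ^ cnt f (se s))) := h1
  unfold vl
  rw [h2, add_sub_cancel_left, ZMod.val_natCast, Nat.mod_eq_of_lt]
  rwa [Mk_hkey] at hw

/-- fresh families -/
def frs (l : ℕ) (C : Finset (Fin 3)) : Finset (Fin 3) := univ.filter (fun f => ¬ pre l f ⊆ C)

theorem mem_frs {l : ℕ} {C : Finset (Fin 3)} {f : Fin 3} : f ∈ frs l C ↔ ¬ pre l f ⊆ C := by
  simp [frs]

theorem hkey_const {s : ℕ} {C : Finset (Fin 3)} {f : Fin 3} (hf : f ∉ frs (sl s) C)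
    {x y : Fin 3 → ℕ} (h : ∀ g ∈ C, x g = y g) : hkey s f x = hkey s f y := by
  rw [mem_frs, not_not] at hf
  unfold hkey
  congr 2
  funext g
  unfold mask
  split_ifs with hg
  · exact h g (hf hg)
  · rfl

theorem hkey_ne {s : ℕ} {C : Finset (Fin 3)} {f : Fin 3} (hf : f ∈ frs (sl s) C)
    {x y : Fin 3 → ℕ} (h : ∀ g ∉ C, x g ≠ y g) : hkey s f x ≠ hkey s f y := by
  rw [mem_frs, Finset.not_subset] at hf
  obtain ⟨g, hg, hgC⟩ := hf
  intro he
  unfold hkey at he
  have h1 : mask (pre (sl s) f) x = mask (pre (sl s) f) y := (Prod.mk.inj (Prod.mk.inj he).2).2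
  have h2 := congrFun h1 g
  unfold mask at h2
  rw [if_pos hg, if_pos hg] at h2
  exact h g hgC h2

end Pool.Agent.Helper25.T4
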