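import Pool.Agent.Helper25.T4.Keys

/-!
# T4', macroscopic pairs: the probability of a family of hits with a given pattern
-/

namespace Pool.Agent.Helper25.T4

open Finset Pool.Agent.Helper27.T4 Pool.Agent.Helper5.ET

/-- `(z, v, v', x, x')` -/
abbrev Hit : Type := ℕ × ℕ × ℕ × (Fin 3 → ℕ) × (Fin 3 → ℕ)

/-- the element `z` -/
abbrev hz (y : Hit) : ℕ := y.1
/-- the window element of `a` -/
abbrev hv1 (y : Hit) : ℕ := y.2.1
/-- the window element of `a'` -/
abbrev hv2 (y : Hit) : ℕ := y.2.2.1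
/-- the triple of `a` -/
abbrev hx1 (y : Hit) : Fin 3 → ℕ := y.2.2.2.1
/-- the triple of `a'` -/
abbrev hx2 (y : Hit) : Fin 3 → ℕ := y.2.2.2.2

/-- a hit for `n` -/
def isHit (s s' n : ℕ) (w : Key → ℕ) (y : Hit) : Prop :=
  hz y = el s w (hx1 y) (hv1 y) ∧ n = hz y + el s' w (hx2 y) (hv2 y)

/-- the code of `a` -/
def cA (s : ℕ) (y : Hit) : ℕ := hz y - Nj (sl s) * hv1 y

/-- the code of `a'` -/
def cB (s' n : ℕ) (y : Hit) : ℕ := n - hz y - Nj (sl s') * hv2 y

theorem code_A {s s' n : ℕ} {w : Key → ℕ} {y : Hit} (h : isHit s s' n w y) :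
    code s w (hx1 y) = cA s y := by
  have h1 := h.1
  unfold el at h1
  unfold cA
  omega

theorem code_B {s s' n : ℕ} {w : Key → ℕ} {y : Hit} (h : isHit s s' n w y) :
    code s' w (hx2 y) = cB s' n y := by
  have h1 := h.2
  unfold el at h1
  unfold cB
  omega

/-- compatible hits: the constant coordinates and the hash values of the families which are not
fresh agree -/
def Cpt (s s' n : ℕ) (C C' : Finset (Fin 3)) (y z : Hit) : Prop :=
  (∀ f ∈ C, hx1 y f = hx1 z f) ∧ (∀ f ∈ C', hx2 y f = hx2 z f) ∧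
  (∀ f, f ∉ frs (sl s) C → vl s f (cA s y) (hx1 y f) = vl s f (cA s z) (hx1 z f)) ∧
  (∀ f, f ∉ frs (sl s') C' → vl s' f (cB s' n y) (hx2 y f) = vl s' f (cB s' n z) (hx2 z f))

/-- the pattern -/
def Pat (C C' : Finset (Fin 3)) (T : Finset Hit) : Prop :=
  (∀ y ∈ T, ∀ z ∈ T, ∀ f ∈ C, hx1 y f = hx1 z f) ∧
  (∀ y ∈ T, ∀ z ∈ T, ∀ f ∈ C', hx2 y f = hx2 z f) ∧
  (∀ f ∉ C, Set.InjOn (fun y : Hit => hx1 y f) (T : Set Hit)) ∧
  (∀ f ∉ C', Set.InjOn (fun y : Hit => hx2 y f) (T : Set Hit))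

theorem Mk_pos (k : Key) : 0 < Mk k := by
  unfold Mk
  split_ifs
  · exact pow_pos (pr_prime _).pos _
  · exact pow_pos (by norm_num) _

/-- the fresh keys of a hit -/
def fkk (s s' : ℕ) (F F' : Finset (Fin 3)) (y : Hit) : Finset Key :=
  F.image (fun f => hkey s f (hx1 y)) ∪ F'.image (fun f => hkey s' f (hx2 y))

theorem hkey_inj_f {s : ℕ} {f g : Fin 3} {x y : Fin 3 → ℕ} (h : hkey s f x = hkey s g y) :
    f = g := by
  unfold hkey at h
  exact Fin.ext (Prod.mk.inj (Prod.mk.inj h).2).1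

theorem hkey_s {s t : ℕ} {f g : Fin 3} {x y : Fin 3 → ℕ} (h : hkey s f x = hkey t g y) :
    s = t := by
  unfold hkey at h
  exact (Prod.mk.inj h).1

theorem fkk_sub {s s' : ℕ} {K : Finset Key} (hK : keysOf s ⊆ K) (hK' : keysOf s' ⊆ K)
    (F F' : Finset (Fin 3)) {y : Hit} (h1 : hx1 y ∈ XX s) (h2 : hx2 y ∈ XX s') :
    fkk s s' F F' y ⊆ K := by
  intro k hk
  rw [fkk, Finset.mem_union, Finset.mem_image, Finset.mem_image] at hk
  rcases hk with ⟨f, _, rfl⟩ | ⟨f, _, rfl⟩
  · exact hK (hkey_mem h1 f)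
  · exact hK' (hkey_mem h2 f)

theorem prod_fkk {s s' : ℕ} (hs : s ≠ s') (F F' : Finset (Fin 3)) (y : Hit) :
    ∏ k ∈ fkk s s' F F' y, ((Mk k : ℝ))⁻¹ =
      (∏ f ∈ F, ((pr f : ℝ) ^ cnt f (se s))⁻¹) * ∏ f ∈ F', ((pr f : ℝ) ^ cnt f (se s'))⁻¹ := by
  unfold fkk
  rw [Finset.prod_union, Finset.prod_image, Finset.prod_image]
  · congr 1
    · refine Finset.prod_congr rfl (fun f _ => ?_)
      rw [Mk_hkey]
      push_cast
      rfl
    · refine Finset.prod_congr rfl (fun f _ => ?_)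
      rw [Mk_hkey]
      push_cast
      rfl
  · intro f _ g _ h
    exact hkey_inj_f h
  · intro f _ g _ h
    exact hkey_inj_f h
  · rw [Finset.disjoint_left]
    intro k hk hk'
    rw [Finset.mem_image] at hk hk'
    obtain ⟨f, _, rfl⟩ := hk
    obtain ⟨g, _, hg⟩ := hk'
    exact hs (hkey_s hg).symm

theorem fkk_disj {s s' : ℕ} (hs : s ≠ s') {C C' : Finset (Fin 3)} {T : Finset Hit}
    (hP : Pat C C' T) {y z : Hit} (hy : y ∈ T) (hz : z ∈ T) (hyz : y ≠ z) :
    Disjoint (fkk s s' (frs (sl s) C) (frs (sl s') C') y)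
      (fkk s s' (frs (sl s) C) (frs (sl s') C') z) := by
  rw [Finset.disjoint_left]
  intro k hk hk'
  rw [fkk, Finset.mem_union, Finset.mem_image, Finset.mem_image] at hk hk'
  have hA : ∀ f ∉ C, hx1 y f ≠ hx1 z f := fun f hf h =>
    hyz (hP.2.2.1 f hf (Finset.mem_coe.mpr hy) (Finset.mem_coe.mpr hz) h)
  have hB : ∀ f ∉ C', hx2 y f ≠ hx2 z f := fun f hf h =>
    hyz (hP.2.2.2 f hf (Finset.mem_coe.mpr hy) (Finset.mem_coe.mpr hz) h)
  rcases hk with ⟨f, hf, rfl⟩ | ⟨f, hf, rfl⟩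
  · rcases hk' with ⟨g, hg, he⟩ | ⟨g, hg, he⟩
    · have hfg := hkey_inj_f he
      subst hfg
      exact hkey_ne hf hA he.symm
    · exact hs (hkey_s he).symm
  · rcases hk' with ⟨g, hg, he⟩ | ⟨g, hg, he⟩
    · exact hs (hkey_s he)
    · have hfg := hkey_inj_f he
      subst hfg
      exact hkey_ne hf hB he.symm

theorem card_filter_le_of_imp {α : Type*} (S : Finset α) (P P' : α → Prop)
    (iP : DecidablePred P) (iP' : DecidablePred P') (h : ∀ a ∈ S, P a → P' a) :
    (@Finset.filter _ P iP S).card ≤ (@Finset.filter _ P' iP' S).card := by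
  apply Finset.card_le_card
  intro a ha
  simp only [Finset.mem_filter] at ha ⊢
  exact ⟨ha.1, h a ha.1 ha.2⟩

open Classical in
/-- the probability of a family of `m + 1` hits for `n` with a given pattern -/
theorem pattern_prob {s s' : ℕ} (n : ℕ) (hs : s ≠ s') (K : Finset Key) (hK : keysOf s ⊆ K)
    (hK' : keysOf s' ⊆ K) (C C' : Finset (Fin 3)) (Y : Finset Hit)
    (hY : ∀ y ∈ Y, hx1 y ∈ XX s ∧ hx2 y ∈ XX s') (Q : ℝ)
    (hQ : ∀ y ∈ Y, ((Y.filter (Cpt s s' n C C' y)).card : ℝ) *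
      ((∏ f ∈ frs (sl s) C, ((pr f : ℝ) ^ cnt f (se s))⁻¹) *
        ∏ f ∈ frs (sl s') C', ((pr f : ℝ) ^ cnt f (se s'))⁻¹) ≤ Q) (m : ℕ) :
    PrLe K (fun w => ∃ T ⊆ Y, T.card = m + 1 ∧ (∀ y ∈ T, isHit s s' n w y) ∧ Pat C C' T)
      (Y.card * Q ^ m) := by
  have hmain := Pool.Agent.Helper29.T4.tuple_bound_w (fun k : K => Mk k.1)
    (fun k => Mk_pos k.1) Y (fun y r => isHit s s' n (Helper5.ET.ext K r) y)
    (fun y => (fkk s s' (frs (sl s) C) (frs (sl s') C') y).subtype (fun k => k ∈ K))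
    (fun y k => if k.1.1 = s then
        (if h : k.1.2.1 < 3 then vl s ⟨k.1.2.1, h⟩ (cA s y) (hx1 y ⟨k.1.2.1, h⟩) else 0)
      else (if h : k.1.2.1 < 3 then vl s' ⟨k.1.2.1, h⟩ (cB s' n y) (hx2 y ⟨k.1.2.1, h⟩) else 0))
    ?_ (Cpt s s' n C C') Q ?_ m
  · unfold PrLe OmK
    rw [mul_comm]
    refine le_trans ?_ hmain
    apply Nat.cast_le.mpr
    refine card_filter_le_of_imp _ _ _ _ _ ?_
    rintro r hr ⟨T, hTY, hTc, hhit, hP⟩
    refine ⟨T, hTY, hTc, hhit, ?_, ?_⟩
    · intro y hy z hz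
      have hkA : ∀ f, f ∉ frs (sl s) C → vl s f (cA s y) (hx1 y f) = vl s f (cA s z) (hx1 z f) := by
        intro f hf
        have h1 := key_eq (w := Helper5.ET.ext K r) (s := s) (x := hx1 y) f ?_
        · have h2 := key_eq (w := Helper5.ET.ext K r) (s := s) (x := hx1 z) f ?_
          · rw [code_A (hhit y hy)] at h1
            rw [code_A (hhit z hz)] at h2
            rw [← h1, ← h2, hkey_const hf (hP.1 y hy z hz)]
          · unfold Helper5.ET.ext
            have hm : hkey s f (hx1 z) ∈ K := hK (hkey_mem (hY z (hTY hz)).1 f)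
            rw [dif_pos hm]
            have := Fintype.mem_piFinset.mp hr ⟨_, hm⟩
            exact Finset.mem_range.mp this
        · unfold Helper5.ET.ext
          have hm : hkey s f (hx1 y) ∈ K := hK (hkey_mem (hY y (hTY hy)).1 f)
          rw [dif_pos hm]
          have := Fintype.mem_piFinset.mp hr ⟨_, hm⟩
          exact Finset.mem_range.mp this
      have hkB : ∀ f, f ∉ frs (sl s') C' →
          vl s' f (cB s' n y) (hx2 y f) = vl s' f (cB s' n z) (hx2 z f) := by
        intro f hf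
        have h1 := key_eq (w := Helper5.ET.ext K r) (s := s') (x := hx2 y) f ?_
        · have h2 := key_eq (w := Helper5.ET.ext K r) (s := s') (x := hx2 z) f ?_
          · rw [code_B (hhit y hy)] at h1
            rw [code_B (hhit z hz)] at h2
            rw [← h1, ← h2, hkey_const hf (hP.2.1 y hy z hz)]
          · unfold Helper5.ET.ext
            have hm : hkey s' f (hx2 z) ∈ K := hK' (hkey_mem (hY z (hTY hz)).2 f)
            rw [dif_pos hm]
            have := Fintype.mem_piFinset.mp hr ⟨_, hm⟩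
            exact Finset.mem_range.mp this
        · unfold Helper5.ET.ext
          have hm : hkey s' f (hx2 y) ∈ K := hK' (hkey_mem (hY y (hTY hy)).2 f)
          rw [dif_pos hm]
          have := Fintype.mem_piFinset.mp hr ⟨_, hm⟩
          exact Finset.mem_range.mp this
      exact ⟨hP.1 y hy z hz, hP.2.1 y hy z hz, hkA, hkB⟩
    · intro y hy z hz hyz
      rw [Finset.disjoint_left]
      intro k hk hk'
      rw [Finset.mem_subtype] at hk hk'
      exact Finset.disjoint_left.mp (fkk_disj hs hP hy hz hyz) hk hk'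
  · intro y hy r hr hhit k hk
    rw [Finset.mem_subtype, fkk, Finset.mem_union, Finset.mem_image, Finset.mem_image] at hk
    have hrk : r k < Mk k.1 := Finset.mem_range.mp (Fintype.mem_piFinset.mp hr k)
    have hext : Helper5.ET.ext K r k.1 = r k := by
      unfold Helper5.ET.ext
      rw [dif_pos k.2]
    rcases hk with ⟨f, hf, he⟩ | ⟨f, hf, he⟩
    · have h1 := key_eq (w := Helper5.ET.ext K r) (s := s) (x := hx1 y) f (by
        rw [he, hext]
        exact hrk)
      rw [he, hext, code_A hhit] at h1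
      have hs1 : k.1.1 = s := by rw [← he]; rfl
      have hf1 : k.1.2.1 = f.val := by rw [← he]; rfl
      have hlt : k.1.2.1 < 3 := by rw [hf1]; exact f.isLt
      have hff : (⟨k.1.2.1, hlt⟩ : Fin 3) = f := Fin.ext hf1
      show r k = if k.1.1 = s then _ else _
      rw [if_pos hs1, dif_pos hlt, hff]
      exact h1
    · have h1 := key_eq (w := Helper5.ET.ext K r) (s := s') (x := hx2 y) f (by
        rw [he, hext]
        exact hrk)
      rw [he, hext, code_B hhit] at h1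
      have hs1 : k.1.1 = s' := by rw [← he]; rfl
      have hf1 : k.1.2.1 = f.val := by rw [← he]; rfl
      have hlt : k.1.2.1 < 3 := by rw [hf1]; exact f.isLt
      have hff : (⟨k.1.2.1, hlt⟩ : Fin 3) = f := Fin.ext hf1
      show r k = if k.1.1 = s then _ else _
      rw [if_neg (by rw [hs1]; exact hs.symm), dif_pos hlt, hff]
      exact h1
  · intro y hy
    refine le_trans (le_of_eq ?_) (hQ y hy)
    rw [← nsmul_eq_mul, ← Finset.sum_const]
    apply Finset.sum_congr rfl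
    intro z hz
    have hzY := (Finset.mem_filter.mp hz).1
    rw [Finset.prod_subtype_eq_prod_filter (p := fun k => k ∈ K)
      (f := fun k : Key => ((Mk k : ℝ))⁻¹)]
    rw [Finset.filter_true_of_mem (fkk_sub hK hK' _ _ (hY z hzY).1 (hY z hzY).2), prod_fkk hs]

end Pool.Agent.Helper25.T4
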