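import Pool.Agent.Helper25.T4.Keys
import Pool.Agent.Helper36.T4.Size
import Pool.Agent.Helper29.T4.Tab

/-!
# T4', block F: phases and masks
-/

namespace Pool.Agent.Helper25.T4

open Finset Pool.Agent.Helper27.T4 Pool.Agent.Helper5.ET Pool.Agent.Helper36.T4
  Pool.Agent.Helper29.T4

/-- the phase of a position -/
def phz (l : ℕ) : ℕ :=
  if 3 * (l - bb (era l)) < bb (era l + 1) - bb (era l) then 0
  else if 5 * (l - bb (era l)) < 2 * (bb (era l + 1) - bb (era l)) then 1 else 2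

/-- a set of families as a mask relative to the era `k` -/
def mask8 (k : ℕ) (C : Finset (Fin 3)) : ℕ :=
  (if fk k ∈ C then 1 else 0) + (if fk (k + 1) ∈ C then 2 else 0) +
    (if fk (k + 2) ∈ C then 4 else 0)

theorem mask8_lt (k : ℕ) (C : Finset (Fin 3)) : mask8 k C < 8 := by
  unfold mask8
  split_ifs <;> norm_num

theorem phz_lt (l : ℕ) : phz l < 3 := by
  unfold phz
  split_ifs <;> norm_num

theorem fk_mod (k i : ℕ) : fk (k + i) = fk (k % 3 + i) := by
  apply Fin.ext
  show (k + i) % 3 = (k % 3 + i) % 3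
  omega

theorem fk_add_mod (k i : ℕ) : fk (k + i) = fk (k + i % 3) := by
  apply Fin.ext
  show (k + i) % 3 = (k + i % 3) % 3
  omega

theorem mask8_mod (k : ℕ) (C : Finset (Fin 3)) : mask8 k C = mask8 (k % 3) C := by
  unfold mask8
  have h := fk_mod k 0
  rw [Nat.add_zero, Nat.add_zero] at h
  rw [h, fk_mod k 1, fk_mod k 2]

theorem bit_iff (k : ℕ) (C : Finset (Fin 3)) (i : ℕ) (hi : i < 3) :
    Tab.bit (mask8 k C) i = true ↔ fk (k + i) ∈ C := by
  unfold mask8
  interval_cases i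
  · show _ ↔ fk k ∈ C
    by_cases h0 : fk k ∈ C <;> by_cases h1 : fk (k + 1) ∈ C <;> by_cases h2 : fk (k + 2) ∈ C <;>
      simp only [h0, h1, h2, if_true, if_false, iff_true, iff_false] <;> decide
  · by_cases h0 : fk k ∈ C <;> by_cases h1 : fk (k + 1) ∈ C <;> by_cases h2 : fk (k + 2) ∈ C <;>
      simp only [h0, h1, h2, if_true, if_false, iff_true, iff_false] <;> decide
  · by_cases h0 : fk k ∈ C <;> by_cases h1 : fk (k + 1) ∈ C <;> by_cases h2 : fk (k + 2) ∈ C <;>
      simp only [h0, h1, h2, if_true, if_false, iff_true, iff_false] <;> decide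

/-- the families hashing `f` in terms of the phase and the residue of the era -/
def prr (ph r : ℕ) (f : Fin 3) : Finset (Fin 3) :=
  if ph = 1 ∧ rk r f = 2 then ∅
  else univ.filter (fun g => rk (if ph = 2 then r + 1 else r) g <
    rk (if ph = 2 then r + 1 else r) f)

theorem rk_mod (k : ℕ) (f : Fin 3) : rk k f = rk (k % 3) f := by
  unfold rk
  have := f.isLt
  omega

theorem rk_mod1 (k : ℕ) (f : Fin 3) : rk (k + 1) f = rk (k % 3 + 1) f := by
  unfold rk
  have := f.isLt
  omega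

theorem pre_eq (l : ℕ) (f : Fin 3) : pre l f = prr (phz l) (era l % 3) f := by
  unfold pre prr iso ordK phz
  by_cases h1 : 3 * (l - bb (era l)) < bb (era l + 1) - bb (era l)
  · have h2 : 5 * (l - bb (era l)) < 2 * (bb (era l + 1) - bb (era l)) := by omega
    have h3 : ¬ (bb (era l + 1) - bb (era l) ≤ 3 * (l - bb (era l))) := by omega
    simp only [h1, h2, h3, if_true, false_and, if_false, Nat.zero_ne_one, (show (0 : ℕ) ≠ 2 by
      norm_num)]
    simp only [← rk_mod]
  · by_cases h2 : 5 * (l - bb (era l)) < 2 * (bb (era l + 1) - bb (era l))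
    · have h3 : bb (era l + 1) - bb (era l) ≤ 3 * (l - bb (era l)) := by omega
      simp only [h1, h2, h3, if_true, true_and, if_false, (show (1 : ℕ) ≠ 2 by norm_num)]
      simp only [← rk_mod]
    · simp only [h1, h2, if_false, and_false, false_and, (show (2 : ℕ) ≠ 1 by norm_num), if_true]
      simp only [← rk_mod1]

theorem frs_dec : ∀ ph < 3, ∀ r < 3, ∀ i < 3, ∀ C : Finset (Fin 3),
    ((¬ prr ph r (fk (r + i)) ⊆ C) ↔ Tab.fr ph (mask8 r C) i = true) := by
  decide

/-- FRESH FAMILIES, side of `a` -/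
theorem frs_iff (l : ℕ) (C : Finset (Fin 3)) (i : ℕ) (hi : i < 3) :
    fk (era l + i) ∈ frs l C ↔ Tab.fr (phz l) (mask8 (era l) C) i = true := by
  rw [mem_frs, pre_eq, fk_mod, mask8_mod]
  exact frs_dec _ (phz_lt l) _ (Nat.mod_lt _ (by norm_num)) i hi C

theorem mask8_rot (k d : ℕ) (C : Finset (Fin 3)) :
    mask8 k C = Tab.rot d (mask8 (k + d) C) := by
  have hd : d % 3 < 3 := Nat.mod_lt _ (by norm_num)
  have e : mask8 (k + d) C = mask8 (k + d % 3) C := by
    rw [mask8_mod (k + d), mask8_mod (k + d % 3)]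
    congr 1
    omega
  rw [e]
  unfold Tab.rot mask8
  have e3 : fk (k + 3) = fk k := fk_add3 k
  have e4 : fk (k + 4) = fk (k + 1) := fk_add3 (k + 1)
  generalize d % 3 = j at *
  interval_cases j
  · simp only [Nat.add_zero]
  · have a1 : k + 1 + 1 = k + 2 := rfl
    have a2 : k + 1 + 2 = k + 3 := rfl
    rw [a1, a2, e3]
    by_cases h0 : fk k ∈ C <;> by_cases h1 : fk (k + 1) ∈ C <;> by_cases h2 : fk (k + 2) ∈ C <;>
      simp only [h0, h1, h2, if_true, if_false]
  · have a1 : k + 2 + 1 = k + 3 := rfl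
    have a2 : k + 2 + 2 = k + 4 := rfl
    rw [a1, a2, e3, e4]
    by_cases h0 : fk k ∈ C <;> by_cases h1 : fk (k + 1) ∈ C <;> by_cases h2 : fk (k + 2) ∈ C <;>
      simp only [h0, h1, h2, if_true, if_false]

/-- FRESH FAMILIES, side of `a'`: indices relative to the era `k = era l' + d` -/
theorem frs_iff2 (l' d : ℕ) (C' : Finset (Fin 3)) (i : ℕ) :
    fk (era l' + d + i) ∈ frs l' C' ↔
      Tab.fr2 d (phz l') (mask8 (era l' + d) C') i = true := by
  unfold Tab.fr2
  rw [← mask8_rot (era l') d C', ← frs_iff l' C' ((i + d) % 3) (Nat.mod_lt _ (by norm_num)),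
    ← fk_add_mod, show era l' + d + i = era l' + (i + d) by ring]

/-- the position in the era, in fifteenths -/
theorem phz_pos {l : ℕ} (h0 : bb 0 ≤ l) :
    Tab.p0 (phz l) * (bb (era l + 1) - bb (era l)) ≤ 15 * (l - bb (era l)) ∧
      15 * (l - bb (era l)) ≤ Tab.p1 (phz l) * (bb (era l + 1) - bb (era l)) := by
  have h1 := (era_spec l h0).2
  unfold phz
  split_ifs with h2 h3
  · show 0 * _ ≤ _ ∧ _ ≤ 5 * _
    omega
  · show 5 * _ ≤ _ ∧ _ ≤ 6 * _
    omega
  · show 6 * _ ≤ _ ∧ _ ≤ 15 * _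
    omega

theorem phz_posR {l : ℕ} (h0 : bb 0 ≤ l) :
    (Tab.p0 (phz l) : ℝ) * ((bb (era l + 1) : ℝ) - bb (era l)) ≤ 15 * ((l : ℝ) - bb (era l)) ∧
      15 * ((l : ℝ) - bb (era l)) ≤
        (Tab.p1 (phz l) : ℝ) * ((bb (era l + 1) : ℝ) - bb (era l)) := by
  obtain ⟨h1, h2⟩ := phz_pos h0
  have h3 := (era_spec l h0).1
  have h4 := bb_lt_succ (era l)
  rw [← Nat.cast_sub h3, ← Nat.cast_sub h4.le]
  exact ⟨by exact_mod_cast h1, by exact_mod_cast h2⟩

/-- in one era the phase grows with the position -/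
theorem phz_mono {l l' : ℕ} (he : era l = era l') (h : l' ≤ l) : phz l' ≤ phz l := by
  unfold phz
  rw [he]
  split_ifs <;> omega

end Pool.Agent.Helper25.T4
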