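import Pool.Agent.Helper25.T4.Macro
import Pool.Agent.Helper29.T4.FDefs

/-!
# T4', macroscopic pairs: void and rare patterns from counts in `Ybox`
-/

namespace Pool.Agent.Helper25.T4

open Finset Pool.Agent.Helper27.T4 Pool.Agent.Helper5.ET Pool.Agent.Helper29.T4

theorem YY_sub_Ybox (s s' n : ℕ) : YY s s' n ⊆
    Ybox s s' n (n + 1 - Nj (sk (s' + 1))) (Nj (sk (s' + 1))) := by
  intro y hy
  rw [mem_YY] at hy
  obtain ⟨h1, h2, h3, h4, h5, h6, h7, h8⟩ := hy
  unfold Ybox
  rw [Finset.mem_filter, Finset.mem_product, Finset.mem_product, Finset.mem_product,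
    Finset.mem_product, Finset.mem_range, Finset.mem_range, Finset.mem_Ico]
  refine ⟨⟨⟨?_, ?_⟩, h2, h3, h4, h5⟩, h7, ?_⟩
  · show n + 1 - Nj (sk (s' + 1)) ≤ hz y
    omega
  · show hz y < n + 1 - Nj (sk (s' + 1)) + Nj (sk (s' + 1))
    omega
  · omega

open Classical in
/-- the count gives a rare pattern -/
theorem rare_of_count {s s' n : ℕ} {Q M : ℝ} {C C' : Finset (Fin 3)}
    (h : ∀ y ∈ Ybox s s' n (n + 1 - Nj (sk (s' + 1))) (Nj (sk (s' + 1))),
      (((Ybox s s' n (n + 1 - Nj (sk (s' + 1))) (Nj (sk (s' + 1)))).filter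
        (Cpt s s' n C C' y)).card : ℝ) ≤ M)
    (hM : M * Wt s s' C C' ≤ Q) : RareC s s' n Q C C' := by
  intro y hy
  refine le_trans (mul_le_mul_of_nonneg_right ?_ ?_) hM
  · refine le_trans (Nat.cast_le.mpr (Finset.card_le_card ?_)) (h y (YY_sub_Ybox s s' n hy))
    exact Finset.filter_subset_filter _ (YY_sub_Ybox s s' n)
  · unfold Wt
    apply mul_nonneg
    · exact Finset.prod_nonneg (fun f _ => inv_nonneg.mpr (by positivity))
    · exact Finset.prod_nonneg (fun f _ => inv_nonneg.mpr (by positivity))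

open Classical in
/-- void because of one family: the pairs `(x f, x' f)` are few -/
theorem void_of_pair {s s' n B : ℕ} {C C' : Finset (Fin 3)} (f : Fin 3) (hf : f ∉ C ∨ f ∉ C')
    (h : ∀ y ∈ Ybox s s' n (n + 1 - Nj (sk (s' + 1))) (Nj (sk (s' + 1))),
      (((Ybox s s' n (n + 1 - Nj (sk (s' + 1))) (Nj (sk (s' + 1)))).filter
        (Cpt s s' n C C' y)).image (fun y => (hx1 y f, hx2 y f))).card ≤ B) :
    VoidC s s' n B C C' := by
  intro T hT hc hP _
  rcases T.eq_empty_or_nonempty with h0 | ⟨y, hy⟩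
  · rw [h0]
    exact Nat.zero_le _
  · refine le_trans (Finset.card_le_card_of_injOn (fun z => (hx1 z f, hx2 z f)) ?_ ?_)
      (h y (YY_sub_Ybox s s' n (hT hy)))
    · intro z hz
      rw [Finset.mem_coe, Finset.mem_image]
      refine ⟨z, ?_, rfl⟩
      rw [Finset.mem_filter]
      exact ⟨YY_sub_Ybox s s' n (hT hz), hc y hy z hz⟩
    · intro z hz z' hz' he
      have he1 : hx1 z f = hx1 z' f := (Prod.mk.inj he).1
      have he2 : hx2 z f = hx2 z' f := (Prod.mk.inj he).2
      rcases hf with hf | hf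
      · exact hP.2.2.1 f hf hz hz' he1
      · exact hP.2.2.2 f hf hz hz' he2

open Classical in
/-- void because `z` is unique -/
theorem void_of_z {s s' n B : ℕ} {C C' : Finset (Fin 3)}
    (h : ∀ y ∈ Ybox s s' n (n + 1 - Nj (sk (s' + 1))) (Nj (sk (s' + 1))),
      (((Ybox s s' n (n + 1 - Nj (sk (s' + 1))) (Nj (sk (s' + 1)))).filter
        (Cpt s s' n C C' y)).image hz).card ≤ B) :
    VoidC s s' n B C C' := by
  intro T hT hc _ hinj
  rcases T.eq_empty_or_nonempty with h0 | ⟨y, hy⟩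
  · rw [h0]
    exact Nat.zero_le _
  · refine le_trans (Finset.card_le_card_of_injOn hz ?_ hinj)
      (h y (YY_sub_Ybox s s' n (hT hy)))
    intro z hz'
    rw [Finset.mem_coe, Finset.mem_image]
    refine ⟨z, ?_, rfl⟩
    rw [Finset.mem_filter]
    exact ⟨YY_sub_Ybox s s' n (hT hz'), hc y hy z hz'⟩

theorem void_mono {s s' n B B' : ℕ} {C C' : Finset (Fin 3)} (h : VoidC s s' n B C C')
    (hB : B ≤ B') : VoidC s s' n B' C C' :=
  fun T hT hc hP hi => (h T hT hc hP hi).trans hB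

end Pool.Agent.Helper25.T4
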